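import Mathlib

/-!
Discrepancy of combinations of indicators of residue classes.
-/

set_option autoImplicit false

open Finset

noncomputable section

namespace Pool.Agent.MP_cebb75_nt

/-- indicator of a residue class -/
def ind (d a : ℕ) : ℕ → ℝ := fun n => if n ≡ a [MOD d] then 1 else 0

/-- zero or the indicator of a residue class with modulus dividing `N` -/
def Atom (N : ℕ) (h : ℕ → ℝ) : Prop := h = 0 ∨ ∃ d a : ℕ, d ∣ N ∧ h = ind d a

/-- mean over a period -/
def av (N : ℕ) (g : ℕ → ℝ) : ℝ := (∑ n ∈ range N, g n) / N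

/-- signed discrepancy -/
def Dsc (N x : ℕ) (g : ℕ → ℝ) : ℝ := ∑ n ∈ range x, g n - x * av N g

theorem sum_ind (d a x : ℕ) (hd : 0 < d) :
    ∑ n ∈ range x, ind d a n = ((x / d : ℕ) : ℝ) + if a % d < x % d then 1 else 0 := by
  have h := Nat.count_modEq_card x hd a
  rw [Nat.count_eq_card_filter_range] at h
  have h2 : ∑ n ∈ range x, ind d a n = (((range x).filter fun n => n ≡ a [MOD d]).card : ℝ) := by
    simp only [ind]
    rw [Finset.sum_boole]
  rw [h2, h]
  push_cast
  rfl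

theorem atom_disc {N : ℕ} (hN : 0 < N) (x : ℕ) {h : ℕ → ℝ} (hh : Atom N h) :
    |Dsc N x h| ≤ 1 := by
  rcases hh with rfl | ⟨d, a, ⟨e, he⟩, rfl⟩
  · simp [Dsc, av]
  · have hd : 0 < d := Nat.pos_of_ne_zero (by rintro rfl; simp at he; omega)
    have he0 : 0 < e := Nat.pos_of_ne_zero (by rintro rfl; simp at he; omega)
    have hdR : (0 : ℝ) < d := by exact_mod_cast hd
    have heR : (0 : ℝ) < e := by exact_mod_cast he0
    have h1 : av N (ind d a) = 1 / d := by
      rw [av, sum_ind d a N hd, he, Nat.mul_mod_right, if_neg (by omega),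
        Nat.mul_div_cancel_left _ hd]
      push_cast
      field_simp
      simp
    rw [Dsc, h1, sum_ind d a x hd]
    have h2 : (x : ℝ) = d * ((x / d : ℕ) : ℝ) + ((x % d : ℕ) : ℝ) := by
      exact_mod_cast (Nat.div_add_mod x d).symm
    have h3 : ((x % d : ℕ) : ℝ) < d := by exact_mod_cast Nat.mod_lt x hd
    have h4 : (0 : ℝ) ≤ ((x % d : ℕ) : ℝ) := by positivity
    have h5 : (x : ℝ) * (1 / d) = ((x / d : ℕ) : ℝ) + ((x % d : ℕ) : ℝ) / d := by
      conv_lhs => rw [h2]
      field_simp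
    have h6 : ((x % d : ℕ) : ℝ) / d ≤ 1 := by rw [div_le_one hdR]; exact h3.le
    have h7 : 0 ≤ ((x % d : ℕ) : ℝ) / d := by positivity
    rw [h5, abs_le]
    split_ifs <;> constructor <;> linarith

theorem Atom.mul {N : ℕ} {g h : ℕ → ℝ} (hg : Atom N g) (hh : Atom N h) : Atom N (g * h) := by
  rcases hg with rfl | ⟨d, a, hd, rfl⟩
  · left; simp
  rcases hh with rfl | ⟨d', a', hd', rfl⟩
  · left; simp
  by_cases hex : ∃ m, m ≡ a [MOD d] ∧ m ≡ a' [MOD d']
  · obtain ⟨m, h1, h2⟩ := hex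
    right
    refine ⟨Nat.lcm d d', m, Nat.lcm_dvd hd hd', ?_⟩
    funext n
    have key : n ≡ m [MOD Nat.lcm d d'] ↔ n ≡ a [MOD d] ∧ n ≡ a' [MOD d'] := by
      constructor
      · intro h
        exact ⟨(h.of_dvd (Nat.dvd_lcm_left _ _)).trans h1,
          (h.of_dvd (Nat.dvd_lcm_right _ _)).trans h2⟩
      · rintro ⟨h3, h4⟩
        exact Nat.mod_lcm (h3.trans h1.symm) (h4.trans h2.symm)
    simp only [ind, Pi.mul_apply, key]
    by_cases h3 : n ≡ a [MOD d] <;> by_cases h4 : n ≡ a' [MOD d'] <;> simp [h3, h4]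
  · left
    funext n
    simp only [ind, Pi.mul_apply, Pi.zero_apply]
    by_cases h3 : n ≡ a [MOD d]
    · have h4 : ¬ n ≡ a' [MOD d'] := fun h4 => hex ⟨n, h3, h4⟩
      simp [h4]
    · simp [h3]

theorem Atom.one (N : ℕ) : Atom N 1 := by
  right
  refine ⟨1, 0, one_dvd _, ?_⟩
  funext n
  simp [ind, Nat.modEq_one]

theorem Dsc_add (N x : ℕ) (g h : ℕ → ℝ) : Dsc N x (g + h) = Dsc N x g + Dsc N x h := by
  simp only [Dsc, av, Pi.add_apply, Finset.sum_add_distrib]
  ring

theorem Dsc_smul (N x : ℕ) (c : ℝ) (g : ℕ → ℝ) : Dsc N x (c • g) = c * Dsc N x g := by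
  simp only [Dsc, av, Pi.smul_apply, smul_eq_mul, ← Finset.mul_sum]
  ring

/-- multiplication by `g` increases the discrepancy seminorm by at most the factor `M` -/
def Mult (N x : ℕ) (g : ℕ → ℝ) (M : ℝ) : Prop :=
  ∀ (u : ℕ → ℝ) (B : ℝ), (∀ h, Atom N h → |Dsc N x (u * h)| ≤ B) →
    ∀ h, Atom N h → |Dsc N x (g * u * h)| ≤ M * B

variable {N x : ℕ}

theorem Mult.atom {g : ℕ → ℝ} (hg : Atom N g) : Mult N x g 1 := by
  intro u B hu h hh
  have := hu (g * h) (hg.mul hh)
  rw [one_mul, show g * u * h = u * (g * h) by ring]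
  exact this

theorem Mult.zero : Mult N x 0 0 := by
  intro u B _ h _
  simp [Dsc, av]

theorem Mult.mono {g : ℕ → ℝ} {M M' : ℝ} (hg : Mult N x g M) (h : M ≤ M') : Mult N x g M' := by
  intro u B hu k hk
  have hB : 0 ≤ B := (abs_nonneg _).trans (hu k hk)
  exact (hg u B hu k hk).trans (mul_le_mul_of_nonneg_right h hB)

theorem Mult.add {g g' : ℕ → ℝ} {M M' : ℝ} (hg : Mult N x g M) (hg' : Mult N x g' M') :
    Mult N x (g + g') (M + M') := by
  intro u B hu h hh
  rw [show (g + g') * u * h = g * u * h + g' * u * h by ring, Dsc_add, add_mul]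
  exact (abs_add_le _ _).trans (add_le_add (hg u B hu h hh) (hg' u B hu h hh))

theorem Mult.smul {g : ℕ → ℝ} {M : ℝ} (c : ℝ) (hg : Mult N x g M) :
    Mult N x (c • g) (|c| * M) := by
  intro u B hu h hh
  rw [smul_mul_assoc, smul_mul_assoc, Dsc_smul, abs_mul, mul_assoc |c|]
  exact mul_le_mul_of_nonneg_left (hg u B hu h hh) (abs_nonneg c)

theorem Mult.mul {g g' : ℕ → ℝ} {M M' : ℝ} (hg : Mult N x g M) (hg' : Mult N x g' M') :
    Mult N x (g * g') (M * M') := by
  intro u B hu h hh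
  have := hg (g' * u) (M' * B) (hg' u B hu) h hh
  rw [mul_assoc M, mul_assoc g g' u]
  exact this

theorem Mult.sum {ι : Type*} (s : Finset ι) (g : ι → ℕ → ℝ) (M : ι → ℝ)
    (h : ∀ i ∈ s, Mult N x (g i) (M i)) : Mult N x (∑ i ∈ s, g i) (∑ i ∈ s, M i) := by
  classical
  induction s using Finset.induction_on with
  | empty => simpa using Mult.zero
  | insert j s hj ih =>
    rw [sum_insert hj, sum_insert hj]
    exact (h j (mem_insert_self _ _)).add (ih fun i hi => h i (mem_insert_of_mem hi))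

theorem Mult.prod {ι : Type*} (s : Finset ι) (g : ι → ℕ → ℝ) (M : ι → ℝ)
    (h : ∀ i ∈ s, Mult N x (g i) (M i)) : Mult N x (∏ i ∈ s, g i) (∏ i ∈ s, M i) := by
  classical
  induction s using Finset.induction_on with
  | empty => simpa using Mult.atom (Atom.one N)
  | insert j s hj ih =>
    rw [prod_insert hj, prod_insert hj]
    exact (h j (mem_insert_self _ _)).mul (ih fun i hi => h i (mem_insert_of_mem hi))

theorem Mult.disc (hN : 0 < N) {g : ℕ → ℝ} {M : ℝ} (hg : Mult N x g M) :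
    ∑ n ∈ range x, g n ≤ x * av N g + M := by
  have := hg 1 1 (fun h hh => by rw [one_mul]; exact atom_disc hN x hh) 1 (Atom.one N)
  rw [mul_one, mul_one, mul_one, Dsc] at this
  linarith [le_abs_self (∑ n ∈ range x, g n - x * av N g)]

end Pool.Agent.MP_cebb75_nt
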