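import Pool.Agent.MP_cebb75_nt.Poly
import Pool.Agent.MP_fdd1d3_nt.Mertens

/-!
Estimates in the independent model.
-/

set_option autoImplicit false

open Finset

noncomputable section

namespace Pool.Agent.MP_cebb75_nt

theorem esymm_succ (P : Finset ℕ) (u : ℕ → ℝ) (j : ℕ) :
    ∑ D ∈ powersetCard j P, (∏ p ∈ D, u p) * ∑ q ∈ P \ D, u q =
      (j + 1) * ∑ D ∈ powersetCard (j + 1) P, ∏ p ∈ D, u p := by
  have h1 : (j + 1 : ℝ) * ∑ D ∈ powersetCard (j + 1) P, ∏ p ∈ D, u p =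
      ∑ D ∈ powersetCard (j + 1) P, ∑ _q ∈ D, ∏ p ∈ D, u p := by
    rw [mul_sum]
    refine sum_congr rfl fun D hD => ?_
    rw [sum_const, (mem_powersetCard.1 hD).2, nsmul_eq_mul]
    push_cast
    rfl
  rw [h1]
  simp only [mul_sum]
  rw [sum_sigma', sum_sigma']
  refine sum_nbij' (fun a => ⟨insert a.2 a.1, a.2⟩) (fun a => ⟨a.1.erase a.2, a.2⟩) ?_ ?_ ?_ ?_ ?_
  · rintro ⟨D, q⟩ h
    simp only [mem_sigma, mem_powersetCard, mem_sdiff] at h ⊢
    exact ⟨⟨insert_subset h.2.1 h.1.1, by rw [card_insert_of_notMem h.2.2, h.1.2]⟩,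
      mem_insert_self _ _⟩
  · rintro ⟨D, q⟩ h
    simp only [mem_sigma, mem_powersetCard, mem_sdiff] at h ⊢
    exact ⟨⟨(erase_subset _ _).trans h.1.1, by rw [card_erase_of_mem h.2, h.1.2]; rfl⟩,
      h.1.1 h.2, notMem_erase _ _⟩
  · rintro ⟨D, q⟩ h
    simp only [mem_sigma, mem_powersetCard, mem_sdiff] at h
    simp only [erase_insert h.2.2]
  · rintro ⟨D, q⟩ h
    simp only [mem_sigma, mem_powersetCard] at h
    simp only [insert_erase h.2]
  · rintro ⟨D, q⟩ h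
    simp only [mem_sigma, mem_powersetCard, mem_sdiff] at h
    simp only [prod_insert h.2.2]
    ring

theorem esymm_lb (P : Finset ℕ) (u : ℕ → ℝ) (ε m : ℝ) (hε : 0 ≤ ε)
    (hu : ∀ p ∈ P, 0 ≤ u p ∧ u p ≤ ε) (J : ℕ) (hm : 0 ≤ m) (h : m + J * ε ≤ ∑ p ∈ P, u p)
    (j : ℕ) (hj : j ≤ J) : m ^ j ≤ j.factorial * ∑ D ∈ powersetCard j P, ∏ p ∈ D, u p := by
  induction j with
  | zero => simp
  | succ j ih =>
    have ih' := ih (by omega)
    have h1 : (∑ D ∈ powersetCard j P, ∏ p ∈ D, u p) * m ≤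
        ∑ D ∈ powersetCard j P, (∏ p ∈ D, u p) * ∑ q ∈ P \ D, u q := by
      rw [sum_mul]
      refine sum_le_sum fun D hD => ?_
      obtain ⟨h2, h3⟩ := mem_powersetCard.1 hD
      refine mul_le_mul_of_nonneg_left ?_ (prod_nonneg fun p hp => (hu p (h2 hp)).1)
      have h4 := sum_sdiff h2 (f := u)
      have h5 := sum_le_card_nsmul D u ε fun p hp => (hu p (h2 hp)).2
      rw [h3, nsmul_eq_mul] at h5
      have h6 : (j : ℝ) * ε ≤ J * ε :=
        mul_le_mul_of_nonneg_right (by exact_mod_cast (by omega : j ≤ J)) hε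
      linarith
    rw [esymm_succ] at h1
    rw [pow_succ, Nat.factorial_succ]
    push_cast
    have h2 := mul_le_mul_of_nonneg_right ih' hm
    have h3 := mul_le_mul_of_nonneg_left h1 (Nat.cast_nonneg (α := ℝ) j.factorial)
    nlinarith

theorem fact_le (J : ℕ) (hJ : 1 ≤ J) :
    (J.factorial : ℝ) ≤ Real.exp 1 * Real.sqrt J * (J / Real.exp 1) ^ J := by
  obtain ⟨n, rfl⟩ : ∃ n, J = n + 1 := ⟨J - 1, by omega⟩
  have h := Stirling.stirlingSeq'_antitone (Nat.zero_le n)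
  simp only [Function.comp, Nat.succ_eq_add_one, zero_add, Stirling.stirlingSeq_one] at h
  rw [Stirling.stirlingSeq, div_le_iff₀ (by positivity), Real.sqrt_mul (by norm_num)] at h
  refine h.trans (le_of_eq ?_)
  field_simp

theorem exists_sub (s : Finset ℕ) (f : ℕ → ℝ) (hf : ∀ p ∈ s, f p ≤ 1) (c : ℝ)
    (hc : 0 ≤ c) (h : c ≤ ∑ p ∈ s, f p) : ∃ P ⊆ s, c ≤ ∑ p ∈ P, f p ∧ ∑ p ∈ P, f p ≤ c + 1 := by
  induction s using Finset.induction_on with
  | empty => exact ⟨∅, Subset.refl _, h, by simp; linarith⟩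
  | insert j s hj ih =>
    by_cases h1 : c ≤ ∑ p ∈ s, f p
    · obtain ⟨P, h2, h3⟩ := ih (fun p hp => hf p (mem_insert_of_mem hp)) h1
      exact ⟨P, h2.trans (subset_insert _ _), h3⟩
    · refine ⟨insert j s, Subset.refl _, h, ?_⟩
      rw [sum_insert hj]
      linarith [hf j (mem_insert_self _ _)]

theorem mertens_low (y z : ℕ) (hy : 2 ≤ y) :
    Real.log z ≤ 30 * Real.log y * Real.exp (∑ p ∈ MP_fdd1d3_nt.PP y z, 1 / (p : ℝ)) := by
  have h1 := MP_fdd1d3_nt.mertens_c y z z hy le_rfl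
  have h2 : Real.log z ≤ Real.log (z + 1) := by
    rcases Nat.eq_zero_or_pos z with rfl | hz
    · simp
    · exact Real.log_le_log (by exact_mod_cast hz) (by linarith)
  refine h2.trans (h1.trans (mul_le_mul_of_nonneg_left ?_
    (mul_nonneg (by norm_num) (Real.log_natCast_nonneg y))))
  calc _ ≤ ∑ s ∈ (MP_fdd1d3_nt.PP y z).powerset, 1 / MP_fdd1d3_nt.nn (fun p => p) s :=
        sum_le_sum_of_subset_of_nonneg (filter_subset _ _) fun s _ _ => by
          unfold MP_fdd1d3_nt.nn; positivity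
    _ = ∏ p ∈ MP_fdd1d3_nt.PP y z, (1 + 1 / (p : ℝ)) := by
        rw [prod_one_add]
        refine sum_congr rfl fun s _ => ?_
        simp [MP_fdd1d3_nt.nn]
    _ ≤ _ := by
        rw [Real.exp_sum]
        refine prod_le_prod (fun p _ => by positivity) fun p _ => ?_
        linarith [Real.add_one_le_exp (1 / (p : ℝ))]

variable {P : Finset ℕ} {K : ℕ}

theorem EE_pow_le (s : ℝ) (hs : 0 ≤ s) :
    EE (aa K) bb P (fun w => s ^ w) ≤
      Real.exp ((s - 1) * ∑ p ∈ P, 1 / (p : ℝ) + 2 * s * K * ∑ p ∈ P, (1 / (p : ℝ)) ^ 2) := by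
  rw [EE_pow, mul_sum, mul_sum, ← sum_add_distrib, Real.exp_sum]
  refine prod_le_prod (fun p _ => add_nonneg (mul_nonneg hs (aa_nonneg K p)) (bb_nonneg p))
    fun p _ => le_trans (le_of_eq ?_) (Real.add_one_le_exp _)
  unfold aa bb
  ring

/-- indicator of a point -/
def pt (J w : ℕ) : ℝ := if w = J then 1 else 0

/-- tail weight -/
def tl (J w : ℕ) : ℝ := if J < w then 16 ^ w else 0

theorem pt_lb (J : ℕ) :
    (∑ D ∈ powersetCard J P, ∏ p ∈ D, 1 / (p : ℝ)) * ∏ p ∈ P, bb p ≤ EE (aa K) bb P (pt J) := by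
  rw [EE, powersetCard_eq_filter, sum_filter, sum_mul]
  refine sum_le_sum fun S hS => ?_
  unfold pt
  split_ifs with h
  · rw [mul_one]
    refine mul_le_mul (prod_le_prod (fun p _ => by positivity) fun p _ => ?_) ?_
      (prod_nonneg fun p _ => bb_nonneg p) (prod_nonneg fun p _ => aa_nonneg K p)
    · exact le_mul_of_one_le_right (by positivity) (le_add_of_nonneg_right (by positivity))
    · refine prod_le_prod_of_subset_of_le_one sdiff_subset (fun p _ => bb_nonneg p) fun p _ _ => ?_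
      unfold bb
      have : (0 : ℝ) ≤ 1 / p := by positivity
      linarith
  · simp

theorem bb_lb (hP : ∀ p ∈ P, 2 ≤ p) :
    Real.exp (-(∑ p ∈ P, 1 / (p : ℝ) + 2 * ∑ p ∈ P, (1 / (p : ℝ)) ^ 2)) ≤ ∏ p ∈ P, bb p := by
  rw [mul_sum, ← sum_add_distrib, ← sum_neg_distrib, Real.exp_sum]
  refine prod_le_prod (fun p _ => (Real.exp_pos _).le) fun p hp => ?_
  have h1 : 1 / (p : ℝ) ≤ 1 / 2 := one_div_le_one_div_of_le two_pos (by exact_mod_cast hP p hp)
  have h2 : (0 : ℝ) ≤ 1 / p := by positivity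
  unfold bb
  generalize 1 / (p : ℝ) = u at h1 h2
  rw [Real.exp_neg, inv_eq_one_div, div_le_iff₀ (Real.exp_pos _)]
  have h3 := mul_le_mul_of_nonneg_left (Real.add_one_le_exp (u + 2 * u ^ 2))
    (show 0 ≤ 1 - u by linarith)
  nlinarith [mul_nonneg (sq_nonneg u) (show 0 ≤ 1 - 2 * u by linarith)]

theorem tl_le (J : ℕ) : EE (aa K) bb P (tl J) ≤ EE (aa K) bb P (fun w => 32 ^ w) / 2 ^ J := by
  have h := EE_lin (aa K) bb P (fun w => 32 ^ w) (fun _ => 0) (fun _ => 0) (1 / 2 ^ J) 0 0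
  simp only [zero_mul, add_zero] at h
  rw [div_eq_mul_one_div, mul_comm, ← h]
  refine EE_mono (fun p _ => aa_nonneg K p) (fun p _ => bb_nonneg p) fun w => ?_
  unfold tl
  split_ifs with h1
  · rw [show (32 : ℝ) ^ w = 2 ^ w * 16 ^ w by rw [← mul_pow]; norm_num, ← mul_assoc]
    refine le_mul_of_one_le_left (by positivity) ?_
    rw [one_div_mul_eq_div, one_le_div (by positivity)]
    exact pow_le_pow_right₀ (by norm_num) h1.le
  · positivity

theorem first_le (J t : ℕ) : EE (aa K) bb P (fun w => (1 - YY J t w) ^ 2) ≤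
    EE (aa K) bb P (fun w => 1 ^ w) - EE (aa K) bb P (pt J) + 4 * EE (aa K) bb P (tl (J + t)) := by
  have h := EE_lin (aa K) bb P (fun w => 1 ^ w) (pt J) (tl (J + t)) 1 (-1) 4
  refine le_trans ?_ (le_of_eq (h.trans (by ring)))
  refine EE_mono (fun p _ => aa_nonneg K p) (fun p _ => bb_nonneg p) fun w => ?_
  unfold pt tl
  rcases lt_trichotomy w J with h1 | rfl | h1
  · rw [YY_lt t h1, if_neg h1.ne, if_neg (by omega)]; simp
  · rw [YY_self, if_pos rfl, if_neg (by omega)]; simp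
  · by_cases h2 : w ≤ J + t
    · rw [YY_mid h1 h2, if_neg h1.ne', if_neg (by omega)]; simp
    · rw [if_neg h1.ne', if_pos (by omega)]
      have h3 := abs_le.1 (YY_abs J t w)
      have h4 : (1 : ℝ) ≤ 4 ^ w := one_le_pow₀ (by norm_num)
      rw [show (16 : ℝ) ^ w = 4 ^ w * 4 ^ w by rw [← mul_pow]; norm_num, one_pow]
      nlinarith

theorem second_le (J t : ℕ) : EE (aa K) bb P (fun w => (1 + 3 * |YY J t w|) ^ 2) ≤
    EE (aa K) bb P (fun w => 1 ^ w) + 15 * EE (aa K) bb P (pt J) +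
      16 * EE (aa K) bb P (tl (J + t)) := by
  have h := EE_lin (aa K) bb P (fun w => 1 ^ w) (pt J) (tl (J + t)) 1 15 16
  refine le_trans ?_ (le_of_eq (h.trans (by ring)))
  refine EE_mono (fun p _ => aa_nonneg K p) (fun p _ => bb_nonneg p) fun w => ?_
  unfold pt tl
  rcases lt_trichotomy w J with h1 | rfl | h1
  · rw [YY_lt t h1, if_neg h1.ne, if_neg (by omega)]; simp
  · rw [YY_self, if_pos rfl, if_neg (by omega)]; norm_num
  · by_cases h2 : w ≤ J + t
    · rw [YY_mid h1 h2, if_neg h1.ne', if_neg (by omega)]; simp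
    · rw [if_neg h1.ne', if_pos (by omega)]
      have h3 := YY_abs J t w
      have h5 := abs_nonneg (YY J t w)
      have h4 : (1 : ℝ) ≤ 4 ^ w := one_le_pow₀ (by norm_num)
      rw [show (16 : ℝ) ^ w = 4 ^ w * 4 ^ w by rw [← mul_pow]; norm_num, one_pow]
      nlinarith

end Pool.Agent.MP_cebb75_nt
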