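import Pool.Agent.MP_cebb75_nt.Est

/-!
Choice of the parameters.
-/

set_option autoImplicit false

open Finset Filter

noncomputable section

namespace Pool.Agent.MP_cebb75_nt

theorem exp_four_le : Real.exp 4 ≤ 55 := by
  have h := Real.exp_one_lt_d9
  have h1 : Real.exp 4 = Real.exp 1 ^ 4 := by rw [← Real.exp_nat_mul]; norm_num
  rw [h1]
  exact (pow_le_pow_left₀ (Real.exp_pos _).le h.le 4).trans (by norm_num)

theorem exp_le_nine : Real.exp (17 / 8) ≤ 9 := by
  have h := Real.exp_one_lt_d9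
  have h1 : Real.exp (17 / 8) = Real.exp 1 ^ 2 * Real.exp (1 / 8) := by
    rw [← Real.exp_nat_mul, ← Real.exp_add]; norm_num
  have h2 : Real.exp (1 / 8) ≤ 8 / 7 := by
    have h3 := Real.add_one_le_exp (-(1 / 8))
    rw [Real.exp_neg, inv_eq_one_div, le_div_iff₀ (Real.exp_pos _)] at h3
    linarith
  have h4 : Real.exp 1 ^ 2 ≤ 7.5 :=
    (pow_le_pow_left₀ (Real.exp_pos _).le h.le 2).trans (by norm_num)
  rw [h1]
  nlinarith [Real.exp_pos (1 / 8), sq_nonneg (Real.exp 1)]

/-- The model estimates for a suitable set of primes. -/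
theorem model_est (J K : ℕ) (hJ : 100 ≤ J) (hK : 2 * K = 2 ^ J) (P : Finset ℕ)
    (hP : ∀ p ∈ P, K ^ 2 < p) (h1 : (J : ℝ) / 2 + 1 ≤ ∑ p ∈ P, 1 / (p : ℝ))
    (h2 : ∑ p ∈ P, 1 / (p : ℝ) ≤ J / 2 + 2) (L : ℝ) (hL : 44 ≤ L)
    (hLE : L ≤ Real.exp (J / 2) / (110 * Real.sqrt J)) :
    ∃ K' ≤ K, 2 * EE (aa K) bb P (fun w => (1 - YY J (25 * J) w) ^ 2) ^ K' +
        2 / 9 ^ ⌈8 * L + 16⌉₊ * EE (aa K) bb P (fun w => (1 + 3 * |YY J (25 * J) w|) ^ 2) ^ K' ≤
      Real.exp (-(L / 2)) / 2 := by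
  have hJR : (100 : ℝ) ≤ J := by exact_mod_cast hJ
  have hJK : J ≤ K := by
    have h3 : J - 1 < 2 ^ (J - 1) := Nat.lt_two_pow_self
    have h4 : 2 ^ J = 2 * 2 ^ (J - 1) := by rw [← pow_succ']; congr 1; omega
    omega
  have hKR : (J : ℝ) ≤ K := by exact_mod_cast hJK
  have hK2 : (2 : ℝ) * K = 2 ^ J := by exact_mod_cast hK
  have hK0 : (0 : ℝ) < K := by linarith
  have hsq : ∑ p ∈ P, (1 / (p : ℝ)) ^ 2 ≤ 1 / (K : ℝ) ^ 2 := by
    have h3 := MP_fdd1d3_nt.inv_sq_tail (K ^ 2) (P.sup id) (by nlinarith)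
    push_cast at h3
    exact le_trans (sum_le_sum_of_subset_of_nonneg
      (fun p hp => mem_Ioc.2 ⟨hP p hp, le_sup (f := id) hp⟩) fun p _ _ => by positivity) h3
  have hKsq : (K : ℝ) * ∑ p ∈ P, (1 / (p : ℝ)) ^ 2 ≤ 1 / K := by
    refine (mul_le_mul_of_nonneg_left hsq hK0.le).trans (le_of_eq ?_)
    field_simp
  have hKinv : 1 / (K : ℝ) ≤ 1 / 100 := one_div_le_one_div_of_le (by norm_num) (by linarith)
  have hKinv0 : 0 < 1 / (K : ℝ) := by positivity
  set π := EE (aa K) bb P (pt J) with hπ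
  set τ := EE (aa K) bb P (tl (J + 25 * J)) with hτ
  set M := EE (aa K) bb P (fun w => 1 ^ w) with hM
  have ha : ∀ p ∈ P, 0 ≤ aa K p := fun p _ => aa_nonneg K p
  have hb : ∀ p ∈ P, 0 ≤ bb p := fun p _ => bb_nonneg p
  have hMle : M ≤ 1 + 4 * (1 / K) := by
    have h3 := EE_pow_le (P := P) (K := K) 1 zero_le_one
    have h4 : Real.exp (2 * (1 / K)) ≤ 1 + 4 * (1 / K) := by
      have := Real.abs_exp_sub_one_le (x := 2 * (1 / K)) (by rw [abs_of_pos (by linarith)]; linarith)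
      rw [abs_of_pos (show 0 < 2 * (1 / (K : ℝ)) by linarith)] at this
      linarith [le_abs_self (Real.exp (2 * (1 / K)) - 1)]
    refine h3.trans (le_trans (Real.exp_le_exp.2 ?_) h4)
    nlinarith
  have hπM : π ≤ M := EE_mono ha hb fun w => by unfold pt; split_ifs <;> simp
  have hs0 : 0 < Real.sqrt J := Real.sqrt_pos.2 (by linarith)
  have hπlb : L ≤ K * π := by
    have h3 := esymm_lb P (fun p => 1 / (p : ℝ)) (1 / (K : ℝ) ^ 2) (J / 2) (by positivity)
      (fun p hp => ⟨by positivity, one_div_le_one_div_of_le (by positivity)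
        (by exact_mod_cast (hP p hp).le)⟩) J (by positivity) (by
          have : (J : ℝ) * (1 / (K : ℝ) ^ 2) ≤ 1 := by
            rw [mul_one_div, div_le_one (by positivity)]
            nlinarith
          linarith) J le_rfl
    set e := ∑ D ∈ powersetCard J P, ∏ p ∈ D, 1 / (p : ℝ) with he
    have he0 : 0 ≤ e := sum_nonneg fun D _ => prod_nonneg fun p _ => by positivity
    have h4 := bb_lb (P := P) fun p hp => by have := hP p hp; nlinarith
    have h5 : Real.exp (-(J / 2 + 3)) ≤ ∏ p ∈ P, bb p := by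
      refine le_trans (Real.exp_le_exp.2 ?_) h4
      have : 1 / (K : ℝ) ^ 2 ≤ 1 / 2 := one_div_le_one_div_of_le (by norm_num) (by nlinarith)
      linarith
    have h6 : e * Real.exp (-(J / 2 + 3)) ≤ π :=
      (mul_le_mul_of_nonneg_left h5 he0).trans (pt_lb J)
    have h7 := h3.trans (mul_le_mul_of_nonneg_right (fact_le J (by omega)) he0)
    rw [div_pow, div_pow, ← hK2, ← Real.exp_nat_mul, mul_one] at h7
    have hJJ : (0 : ℝ) < (J : ℝ) ^ J := by positivity
    have h8 : Real.exp J ≤ 2 * K * Real.exp 1 * Real.sqrt J * e := by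
      rw [div_le_iff₀ (by positivity)] at h7
      have h9 : (J : ℝ) ^ J * Real.exp J ≤
          (J : ℝ) ^ J * (2 * K * Real.exp 1 * Real.sqrt J * e) := by
        refine (mul_le_mul_of_nonneg_right h7 (Real.exp_pos J).le).trans (le_of_eq ?_)
        field_simp
      exact le_of_mul_le_mul_left h9 hJJ
    refine hLE.trans ?_
    rw [div_le_iff₀ (by positivity)]
    have h9 : Real.exp (J / 2) = Real.exp J * Real.exp (-(J / 2 + 3)) * Real.exp 3 := by
      rw [← Real.exp_add, ← Real.exp_add]; congr 1; ring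
    have h10 : Real.exp 1 * Real.exp 3 ≤ 55 := by
      rw [← Real.exp_add]; norm_num; exact exp_four_le
    calc Real.exp (J / 2) ≤ 2 * K * Real.exp 1 * Real.sqrt J * e * Real.exp (-(J / 2 + 3)) *
          Real.exp 3 := by rw [h9]; gcongr
      _ = 2 * K * Real.sqrt J * (e * Real.exp (-(J / 2 + 3))) * (Real.exp 1 * Real.exp 3) := by
          ring
      _ ≤ 2 * K * Real.sqrt J * π * 55 := by
          have h11 : 0 ≤ π := le_trans (mul_nonneg he0 (Real.exp_pos _).le) h6
          gcongr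
      _ = _ := by ring
  have hπ0 : 0 < π := by
    by_contra h
    push Not at h
    nlinarith
  have hτle : 16 * τ ≤ π := by
    have h3 := (tl_le (P := P) (K := K) (J + 25 * J)).trans (div_le_div_of_nonneg_right
      (EE_pow_le (P := P) (K := K) 32 (by norm_num)) (by positivity))
    have h4 : Real.exp ((32 - 1) * ∑ p ∈ P, 1 / (p : ℝ) +
        2 * 32 * K * ∑ p ∈ P, (1 / (p : ℝ)) ^ 2) * 16 ≤ 2 ^ (25 * J) := by
      have h5 : (2 : ℝ) ^ (25 * J) = Real.exp ((25 * J : ℕ) * Real.log 2) := by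
        rw [Real.exp_nat_mul, Real.exp_log two_pos]
      have h6 : (16 : ℝ) ≤ Real.exp 15 := by linarith [Real.add_one_le_exp 15]
      refine (mul_le_mul_of_nonneg_left h6 (Real.exp_pos _).le).trans ?_
      rw [h5, ← Real.exp_add, Real.exp_le_exp]
      push_cast
      nlinarith [Real.log_two_gt_d9]
    rw [pow_add, le_div_iff₀ (by positivity), ← hK2] at h3
    have h5 : (0 : ℝ) < 2 ^ (25 * J) := by positivity
    have h6 : 16 * τ * (2 * K) * 2 ^ (25 * J) ≤ 1 * 2 ^ (25 * J) := by linarith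
    have h7 := le_of_mul_le_mul_right h6 h5
    have h8 : 16 * τ * (2 * K) ≤ π * (2 * K) := by linarith
    exact le_of_mul_le_mul_right h8 (by linarith)
  set K' := ⌈L / π⌉₊ with hK'
  have hK'K : K' ≤ K := Nat.ceil_le.2 (by rw [div_le_iff₀ hπ0]; exact hπlb)
  have hK'R : (K' : ℝ) ≤ K := by exact_mod_cast hK'K
  have hlo : L ≤ K' * π := by
    have := Nat.le_ceil (L / π)
    rwa [div_le_iff₀ hπ0] at this
  have hup : K' * π ≤ L + 2 := by
    have h3 := (Nat.ceil_lt_add_one (show 0 ≤ L / π by positivity)).le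
    have h4 := mul_le_mul_of_nonneg_right h3 hπ0.le
    rw [add_mul, div_mul_cancel₀ _ hπ0.ne'] at h4
    linarith
  have hK'inv : (K' : ℝ) * (1 / K) ≤ 1 := by
    rw [mul_one_div, div_le_one hK0]; exact hK'R
  refine ⟨K', hK'K, ?_⟩
  have hA1 : EE (aa K) bb P (fun w => (1 - YY J (25 * J) w) ^ 2) ^ K' ≤
      Real.exp (4 - 3 * L / 4) := by
    have h3 := first_le (P := P) (K := K) J (25 * J)
    have h4 : EE (aa K) bb P (fun w => (1 - YY J (25 * J) w) ^ 2) ≤
        Real.exp (4 * (1 / K) - 3 * π / 4) := by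
      linarith [Real.add_one_le_exp (4 * (1 / K) - 3 * π / 4)]
    refine (pow_le_pow_left₀ (EE_nonneg ha hb fun w => sq_nonneg _) h4 K').trans ?_
    rw [← Real.exp_nat_mul, Real.exp_le_exp]
    nlinarith
  have hA2 : EE (aa K) bb P (fun w => (1 + 3 * |YY J (25 * J) w|) ^ 2) ^ K' ≤
      Real.exp (36 + 16 * L) := by
    have h3 := second_le (P := P) (K := K) J (25 * J)
    have h4 : EE (aa K) bb P (fun w => (1 + 3 * |YY J (25 * J) w|) ^ 2) ≤
        Real.exp (4 * (1 / K) + 16 * π) := by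
      linarith [Real.add_one_le_exp (4 * (1 / K) + 16 * π)]
    refine (pow_le_pow_left₀ (EE_nonneg ha hb fun w => sq_nonneg _) h4 K').trans ?_
    rw [← Real.exp_nat_mul, Real.exp_le_exp]
    nlinarith
  have h9 : Real.exp (17 * L + 34) ≤ 9 ^ ⌈8 * L + 16⌉₊ := by
    refine le_trans ?_ (pow_le_pow_left₀ (Real.exp_pos _).le exp_le_nine _)
    rw [← Real.exp_nat_mul, Real.exp_le_exp]
    linarith [Nat.le_ceil (8 * L + 16)]
  have hA3 : 2 / 9 ^ ⌈8 * L + 16⌉₊ *
      EE (aa K) bb P (fun w => (1 + 3 * |YY J (25 * J) w|) ^ 2) ^ K' ≤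
      2 * Real.exp (4 - 3 * L / 4) := by
    calc _ ≤ 2 / Real.exp (17 * L + 34) * Real.exp (36 + 16 * L) :=
          mul_le_mul (div_le_div_of_nonneg_left (by norm_num) (Real.exp_pos _) h9) hA2
            (pow_nonneg (EE_nonneg ha hb fun w => sq_nonneg _) _) (by positivity)
      _ = 2 * Real.exp (36 + 16 * L - (17 * L + 34)) := by rw [Real.exp_sub]; ring
      _ ≤ _ := mul_le_mul_of_nonneg_left (Real.exp_le_exp.2 (by linarith)) (by norm_num)
  have h10 : 8 * Real.exp (4 - 3 * L / 4) ≤ Real.exp (-(L / 2)) := by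
    have h11 : Real.exp (-(L / 2)) = Real.exp (L / 4 - 4) * Real.exp (4 - 3 * L / 4) := by
      rw [← Real.exp_add]; congr 1; ring
    rw [h11]
    exact mul_le_mul_of_nonneg_right (by linarith [Real.add_one_le_exp (L / 4 - 4)])
      (Real.exp_pos _).le
  linarith

open scoped Classical in
theorem core (J x : ℕ) (hJ : 100 ≤ J)
    (hx : 3000 * (J * Real.sqrt J * Real.exp J) ≤ Real.log x) :
    (((range (x + 1)).filter Adm).card : ℝ) ≤
      x * Real.exp (-(Real.exp (J / 2) / (220 * Real.sqrt J))) := by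
  have hJR : (100 : ℝ) ≤ J := by exact_mod_cast hJ
  set K := 2 ^ (J - 1) with hKd
  have hK : 2 * K = 2 ^ J := by rw [hKd, ← pow_succ']; congr 1; omega
  have hJK : J ≤ K := by
    have h3 : J - 1 < 2 ^ (J - 1) := Nat.lt_two_pow_self
    omega
  set E := Real.exp (J / 2) with hE
  set s := Real.sqrt J with hs
  have hs2 : s ^ 2 = J := Real.sq_sqrt (by positivity)
  have hs10 : 10 ≤ s := Real.le_sqrt_of_sq_le (by linarith)
  have hE2 : Real.exp J = E ^ 2 := by rw [hE, ← Real.exp_nat_mul]; congr 1; push_cast; ring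
  have hEJ : 2600 * J ≤ E := by
    have h1 := Real.pow_div_factorial_le_exp (J / 2 : ℝ) (by positivity) 4
    have h2 : (100 : ℝ) ^ 3 ≤ (J : ℝ) ^ 3 := pow_le_pow_left₀ (by norm_num) hJR 3
    norm_num [Nat.factorial] at h1 h2
    nlinarith
  set L := E / (110 * s) with hLd
  have hL : 44 ≤ L := by
    rw [hLd, le_div_iff₀ (by positivity)]
    nlinarith
  have hLE : L ≤ E := div_le_self (by linarith) (by linarith)
  set z := ⌈Real.exp (115 * J * E)⌉₊ with hz
  have hz1 : Real.exp (115 * J * E) ≤ z := Nat.le_ceil _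
  have hJE : 7 ≤ J * E := by nlinarith
  have hz2 : (4 * z : ℝ) ≤ Real.exp (116 * J * E) := by
    have h1 := Nat.ceil_lt_add_one (Real.exp_pos (115 * J * E)).le
    have h2 : 1 ≤ Real.exp (115 * J * E) := Real.one_le_exp (by positivity)
    have h3 : Real.exp (116 * J * E) = Real.exp (J * E) * Real.exp (115 * J * E) := by
      rw [← Real.exp_add]; congr 1; ring
    have h4 : 8 ≤ Real.exp (J * E) := by linarith [Real.add_one_le_exp (J * E)]
    rw [h3]
    nlinarith
  have hz0 : 1 ≤ z := by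
    have : (0 : ℝ) < z := (Real.exp_pos _).trans_le hz1
    exact_mod_cast this
  have hzR : (1 : ℝ) ≤ z := by exact_mod_cast hz0
  have hmu : (J : ℝ) / 2 + 1 ≤ ∑ p ∈ MP_fdd1d3_nt.PP (K ^ 2) z, 1 / (p : ℝ) := by
    have h1 := mertens_low (K ^ 2) z (by nlinarith)
    have h2 : 115 * J * E ≤ Real.log z := by
      rw [Real.le_log_iff_exp_le (by linarith)]; exact hz1
    have h3 : Real.log ((K ^ 2 : ℕ) : ℝ) ≤ 1.4 * J := by
      have h4 : ((J - 1 : ℕ) : ℝ) ≤ J := by exact_mod_cast Nat.sub_le J 1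
      rw [hKd]
      push_cast
      rw [Real.log_pow, Real.log_pow]
      push_cast
      nlinarith [Real.log_two_lt_d9, Real.log_two_gt_d9]
    rw [← Real.exp_le_exp, Real.exp_add, ← hE]
    set F := Real.exp (∑ p ∈ MP_fdd1d3_nt.PP (K ^ 2) z, 1 / (p : ℝ)) with hF
    have hF0 : 0 < F := Real.exp_pos _
    have h4 : J * (115 * E) ≤ J * (42 * F) := by nlinarith
    have h5 := le_of_mul_le_mul_left h4 (by linarith)
    nlinarith [Real.exp_one_lt_d9]
  obtain ⟨P, hPs, hP1, hP2⟩ := exists_sub _ (fun p => 1 / (p : ℝ)) (fun p hp => by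
    have := ((MP_fdd1d3_nt.mem_PP _ _ _).1 hp).2.one_le
    rw [div_le_one (by exact_mod_cast this)]
    exact_mod_cast this) _ (by positivity) hmu
  have hPm : ∀ p ∈ P, (K ^ 2 < p ∧ p ≤ z) ∧ p.Prime := fun p hp =>
    (MP_fdd1d3_nt.mem_PP _ _ _).1 (hPs hp)
  obtain ⟨K', hK', hest⟩ := model_est J K hJ hK P (fun p hp => (hPm p hp).1.1) hP1
    (by linarith) L hL le_rfl
  have hPc : P.card ≤ z := by
    have : P ⊆ Icc 1 z := fun p hp => mem_Icc.2 ⟨(hPm p hp).2.one_le, (hPm p hp).1.2⟩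
    simpa using card_le_card this
  have hc := count_le x K K' J (25 * J) ⌈8 * L + 16⌉₊ z (by omega) hK' (by omega) P
    (fun p hp => ⟨(hPm p hp).2, by have := (hPm p hp).1.1; nlinarith⟩) hPc hz0
  set X := Real.log x with hX
  have hX1 : 3000 * E ^ 2 ≤ X := by
    rw [hE2] at hx
    have : 1 ≤ J * s := by nlinarith
    nlinarith [mul_le_mul_of_nonneg_right this (sq_nonneg E)]
  have hEE : E ≤ E ^ 2 := by nlinarith
  have hx0 : (0 : ℝ) < x := by
    rcases Nat.eq_zero_or_pos x with h | h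
    · rw [h] at hX
      simp at hX
      nlinarith
    · exact_mod_cast h
  have hxe : (x : ℝ) = Real.exp X := (Real.exp_log hx0).symm
  have hKe : (2 * K : ℝ) ≤ Real.exp J := by
    have h1 : (2 * K : ℝ) = 2 ^ J := by exact_mod_cast hK
    rw [h1, ← mul_one (J : ℝ), Real.exp_nat_mul]
    exact pow_le_pow_left₀ (by norm_num) (by linarith [Real.add_one_le_exp 1]) _
  have hlev : 9 * (K * (4 * z : ℝ) ^ (J + 25 * J)) ^ (2 * ⌈8 * L + 16⌉₊) ≤ Real.exp (X / 2) := by
    have h1 : (K : ℝ) ≤ (4 * z : ℝ) ^ J := by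
      have h2 : (2 * K : ℝ) = 2 ^ J := by exact_mod_cast hK
      have h3 : (2 : ℝ) ^ J ≤ (4 * z : ℝ) ^ J := pow_le_pow_left₀ (by norm_num) (by linarith) _
      have : (0 : ℝ) ≤ K := by positivity
      linarith
    have h2 : K * (4 * z : ℝ) ^ (J + 25 * J) ≤ Real.exp (3132 * J ^ 2 * E) := by
      calc K * (4 * z : ℝ) ^ (J + 25 * J) ≤ (4 * z : ℝ) ^ J * (4 * z : ℝ) ^ (J + 25 * J) := by gcongr
        _ = (4 * z : ℝ) ^ (27 * J) := by rw [← pow_add]; congr 1; ring
        _ ≤ Real.exp (116 * J * E) ^ (27 * J) := pow_le_pow_left₀ (by positivity) hz2 _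
        _ = _ := by rw [← Real.exp_nat_mul]; congr 1; push_cast; ring
    have h3 : (⌈8 * L + 16⌉₊ : ℝ) ≤ 9 * L := by
      linarith [Nat.ceil_lt_add_one (show 0 ≤ 8 * L + 16 by linarith)]
    have h4 : L * (J ^ 2 * E) = J * s * E ^ 2 / 110 := by
      rw [hLd, ← hs2]
      field_simp
    have h5 : (9 : ℝ) ≤ Real.exp 8 := by linarith [Real.add_one_le_exp 8]
    refine (mul_le_mul h5 (pow_le_pow_left₀ (by positivity) h2 _) (by positivity)
      (by positivity)).trans ?_
    rw [← Real.exp_nat_mul, ← Real.exp_add, Real.exp_le_exp]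
    push_cast
    rw [hE2] at hx
    have h6 := mul_le_mul_of_nonneg_right h3 (show 0 ≤ J ^ 2 * E by positivity)
    nlinarith
  have hsm : (K + 2 : ℝ) ≤ Real.exp (X / 2) := by
    have h1 : (J : ℝ) ≤ K := by exact_mod_cast hJK
    refine le_trans (by linarith) (hKe.trans (Real.exp_le_exp.2 ?_))
    nlinarith
  have hfin : 4 * Real.exp (X / 2) ≤ x * Real.exp (-(L / 2)) := by
    have h1 : x * Real.exp (-(L / 2)) = Real.exp (X / 2 - L / 2) * Real.exp (X / 2) := by
      rw [hxe, ← Real.exp_add, ← Real.exp_add]; congr 1; ring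
    rw [h1]
    refine mul_le_mul_of_nonneg_right ?_ (Real.exp_pos _).le
    nlinarith [Real.add_one_le_exp (X / 2 - L / 2)]
  have hcard : (((range (x + 1)).filter Adm).card : ℝ) ≤ ((range x).filter Adm).card + 1 := by
    rw [range_add_one, filter_insert]
    split_ifs
    · exact_mod_cast card_insert_le _ _
    · linarith
  have hLL : E / (220 * s) = L / 2 := by rw [hLd]; field_simp; ring
  rw [hLL]
  have h1 := mul_le_mul_of_nonneg_left hest hx0.le
  linarith

end Pool.Agent.MP_cebb75_nt
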