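import Pool.Agent.MP_cebb75_nt.Disc

/-!
Comparison of the residue model with a product of independent models.
-/

set_option autoImplicit false

open Finset

noncomputable section

namespace Pool.Agent.MP_cebb75_nt

/-- number of primes of `P` modulo which `n` has residue `k` -/
def om (P : Finset ℕ) (k n : ℕ) : ℕ := (P.filter fun p => n % p = k).card

/-- weighted sum over subsets -/
def EE (a b : ℕ → ℝ) (P : Finset ℕ) (f : ℕ → ℝ) : ℝ :=
  ∑ S ∈ P.powerset, (∏ p ∈ S, a p) * (∏ p ∈ P \ S, b p) * f S.card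

theorem EE_insert (a b : ℕ → ℝ) {P : Finset ℕ} {p : ℕ} (hp : p ∉ P) (f : ℕ → ℝ) :
    EE a b (insert p P) f = a p * EE a b P (fun w => f (w + 1)) + b p * EE a b P f := by
  rw [EE, sum_powerset_insert hp, add_comm, EE, EE, mul_sum, mul_sum]
  congr 1
  · refine sum_congr rfl fun S hS => ?_
    have hS' : p ∉ S := fun h => hp (mem_powerset.1 hS h)
    rw [prod_insert hS', card_insert_of_notMem hS', insert_sdiff_insert, sdiff_insert_of_notMem hp]
    ring
  · refine sum_congr rfl fun S hS => ?_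
    have hS' : p ∉ S := fun h => hp (mem_powerset.1 hS h)
    rw [insert_sdiff_of_notMem _ hS', prod_insert (by simp [hp])]
    ring

theorem EE_mono {a b : ℕ → ℝ} {P : Finset ℕ} (ha : ∀ p ∈ P, 0 ≤ a p) (hb : ∀ p ∈ P, 0 ≤ b p)
    {f g : ℕ → ℝ} (h : ∀ w, f w ≤ g w) : EE a b P f ≤ EE a b P g := by
  refine sum_le_sum fun S hS => mul_le_mul_of_nonneg_left (h _) (mul_nonneg ?_ ?_)
  · exact prod_nonneg fun p hp => ha p (mem_powerset.1 hS hp)
  · exact prod_nonneg fun p hp => hb p (mem_sdiff.1 hp).1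

theorem EE_nonneg {a b : ℕ → ℝ} {P : Finset ℕ} (ha : ∀ p ∈ P, 0 ≤ a p) (hb : ∀ p ∈ P, 0 ≤ b p)
    {f : ℕ → ℝ} (h : ∀ w, 0 ≤ f w) : 0 ≤ EE a b P f := by
  have := EE_mono ha hb (f := fun _ => 0) h
  simpa [EE] using this

theorem EE_lin (a b : ℕ → ℝ) (P : Finset ℕ) (f g h : ℕ → ℝ) (c d e : ℝ) :
    EE a b P (fun w => c * f w + d * g w + e * h w) =
      c * EE a b P f + d * EE a b P g + e * EE a b P h := by
  simp only [EE, mul_sum, ← sum_add_distrib]
  exact sum_congr rfl fun S _ => by ring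

theorem EE_pow (a b : ℕ → ℝ) (P : Finset ℕ) (s : ℝ) :
    EE a b P (fun w => s ^ w) = ∏ p ∈ P, (s * a p + b p) := by
  rw [prod_add, EE]
  refine sum_congr rfl fun S _ => ?_
  rw [prod_mul_distrib, prod_const]
  ring

theorem first_order (s : Finset ℕ) (u v : ℕ → ℝ) (hu : ∀ k ∈ s, 0 ≤ u k) (hv : ∀ k ∈ s, 0 ≤ v k) :
    ∏ k ∈ s, v k + ∑ c ∈ s, u c * ∏ k ∈ s.erase c, v k ≤ ∏ k ∈ s, (u k + v k) := by
  induction s using Finset.induction_on with
  | empty => simp
  | insert j s hj ih =>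
    have ih' := ih (fun k hk => hu k (mem_insert_of_mem hk)) fun k hk => hv k (mem_insert_of_mem hk)
    have huj := hu j (mem_insert_self _ _)
    have hvj := hv j (mem_insert_self _ _)
    rw [prod_insert hj, prod_insert hj, sum_insert hj, erase_insert hj]
    have h1 : ∑ c ∈ s, u c * ∏ k ∈ (insert j s).erase c, v k =
        v j * ∑ c ∈ s, u c * ∏ k ∈ s.erase c, v k := by
      rw [mul_sum]
      refine sum_congr rfl fun c hc => ?_
      have hne : j ≠ c := fun h => hj (h ▸ hc)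
      rw [erase_insert_of_ne hne, prod_insert (by simp [hj])]
      ring
    have h2 : 0 ≤ ∑ c ∈ s, u c * ∏ k ∈ s.erase c, v k :=
      sum_nonneg fun c hc => mul_nonneg (hu c (mem_insert_of_mem hc))
        (prod_nonneg fun k hk => hv k (mem_insert_of_mem (mem_of_mem_erase hk)))
    rw [h1]
    have h3 := mul_le_mul_of_nonneg_left ih' (add_nonneg huj hvj)
    nlinarith [mul_nonneg huj h2]

/-- the weight of a prime that is chosen -/
def aa (K p : ℕ) : ℝ := 1 / p * (1 + 2 * K / p)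

/-- the weight of a prime that is not chosen -/
def bb (p : ℕ) : ℝ := 1 - 1 / p

theorem aa_nonneg (K p : ℕ) : 0 ≤ aa K p := by unfold aa; positivity

theorem bb_nonneg (p : ℕ) : 0 ≤ bb p := by
  unfold bb
  rcases Nat.eq_zero_or_pos p with rfl | hp
  · simp
  · have : (1 : ℝ) ≤ p := by exact_mod_cast hp
    rw [sub_nonneg, div_le_one (by linarith)]
    exact this

theorem bb_pow (p m : ℕ) : 1 - m / (p : ℝ) ≤ bb p ^ m := by
  have h := one_add_mul_le_pow (a := -(1 / (p : ℝ))) (by linarith [bb_nonneg p, show bb p = 1 - 1 / (p : ℝ) from rfl]) m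
  rw [bb, sub_eq_add_neg (1 : ℝ) (1 / (p : ℝ))]
  refine le_trans (le_of_eq ?_) h
  ring

theorem step_bound {K p : ℕ} (hK : 2 * K ≤ p) (hp : 0 < p) (T : Finset ℕ) (hT : T ⊆ range p)
    (hTK : T.card ≤ K) (A B : ℕ → ℝ) (hA : ∀ k ∈ T, 0 ≤ A k) (hB : ∀ k ∈ T, 0 ≤ B k) :
    (∑ c ∈ range p, ∏ k ∈ T, (if c = k then A k else B k)) / p ≤
      ∏ k ∈ T, (aa K p * A k + bb p * B k) := by
  have hpR : (0 : ℝ) < p := by exact_mod_cast hp
  have hKR : 2 * (K : ℝ) ≤ p := by exact_mod_cast hK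
  have hTR : (T.card : ℝ) ≤ K := by exact_mod_cast hTK
  rw [← sum_sdiff hT]
  have h1 : ∑ c ∈ range p \ T, ∏ k ∈ T, (if c = k then A k else B k) =
      ((p : ℝ) - T.card) * ∏ k ∈ T, B k := by
    rw [sum_congr rfl (g := fun _ => ∏ k ∈ T, B k), sum_const, card_sdiff_of_subset hT, card_range,
      nsmul_eq_mul, Nat.cast_sub (by simpa using card_le_card hT)]
    intro c hc
    refine prod_congr rfl fun k hk => if_neg ?_
    rintro rfl
    exact (mem_sdiff.1 hc).2 hk
  have h2 : ∑ c ∈ T, ∏ k ∈ T, (if c = k then A k else B k) =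
      ∑ c ∈ T, A c * ∏ k ∈ T.erase c, B k := by
    refine sum_congr rfl fun c hc => ?_
    rw [← mul_prod_erase _ _ hc, if_pos rfl]
    congr 1
    exact prod_congr rfl fun k hk => if_neg (ne_of_mem_erase hk).symm
  rw [h1, h2]
  refine le_trans ?_ (first_order T _ _ (fun k hk => mul_nonneg (aa_nonneg K p) (hA k hk))
    fun k hk => mul_nonneg (bb_nonneg p) (hB k hk))
  rw [add_div, sum_div]
  refine add_le_add ?_ (sum_le_sum fun c hc => ?_)
  · rw [prod_mul_distrib, prod_const]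
    have h3 := bb_pow p T.card
    have h4 : 0 ≤ ∏ k ∈ T, B k := prod_nonneg hB
    have h5 : ((p : ℝ) - T.card) * (∏ k ∈ T, B k) / p = (1 - T.card / (p : ℝ)) * ∏ k ∈ T, B k := by
      field_simp
    rw [h5]
    exact mul_le_mul_of_nonneg_right h3 h4
  · rw [prod_mul_distrib, prod_const]
    have h4 : 0 ≤ A c * ∏ k ∈ T.erase c, B k :=
      mul_nonneg (hA c hc) (prod_nonneg fun k hk => hB k (mem_of_mem_erase hk))
    have h3 := bb_pow p (T.erase c).card
    have h6 : ((T.erase c).card : ℝ) ≤ K := by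
      exact_mod_cast (card_erase_le (s := T) (a := c)).trans hTK
    have h7 : 1 - K / (p : ℝ) ≤ bb p ^ (T.erase c).card := by
      refine le_trans ?_ h3
      gcongr
    have h8 : 1 / (p : ℝ) ≤ aa K p * bb p ^ (T.erase c).card := by
      refine le_trans ?_ (mul_le_mul_of_nonneg_left h7 (aa_nonneg K p))
      have h9 : (K : ℝ) / p ≤ 1 / 2 := by rw [div_le_iff₀ hpR]; linarith
      have h10 : 0 ≤ (K : ℝ) / p := by positivity
      rw [aa, mul_assoc, mul_div_assoc]
      refine le_mul_of_one_le_right (by positivity) ?_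
      nlinarith
    calc (A c * ∏ k ∈ T.erase c, B k) / p = 1 / (p : ℝ) * (A c * ∏ k ∈ T.erase c, B k) := by ring
      _ ≤ aa K p * bb p ^ (T.erase c).card * (A c * ∏ k ∈ T.erase c, B k) :=
        mul_le_mul_of_nonneg_right h8 h4
      _ = _ := by ring

theorem sum_crt {p N : ℕ} (co : p.Coprime N) (hp : 0 < p) (hN : 0 < N) (F : ℕ → ℕ → ℝ) :
    ∑ n ∈ range (p * N), F (n % p) (n % N) = ∑ c ∈ range p, ∑ m ∈ range N, F c m := by
  rw [← sum_product']
  refine sum_nbij' (fun n => (n % p, n % N)) (fun q => Nat.chineseRemainder co q.1 q.2)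
    ?_ ?_ ?_ ?_ ?_
  · intro n _
    simp [Nat.mod_lt _ hp, Nat.mod_lt _ hN]
  · intro q _
    exact mem_range.2 (Nat.chineseRemainder_lt_mul co _ _ hp.ne' hN.ne')
  · intro n hn
    have h1 := Nat.chineseRemainder_modEq_unique co (a := n % p) (b := n % N) (z := n)
      (Nat.mod_modEq n p).symm (Nat.mod_modEq n N).symm
    exact (Nat.ModEq.eq_of_lt_of_lt h1 (mem_range.1 hn)
      (Nat.chineseRemainder_lt_mul co _ _ hp.ne' hN.ne')).symm
  · intro q hq
    obtain ⟨h1, h2⟩ := mem_product.1 hq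
    have h3 := (Nat.chineseRemainder co q.1 q.2).2
    ext
    · exact Eq.trans h3.1 (Nat.mod_eq_of_lt (mem_range.1 h1))
    · exact Eq.trans h3.2 (Nat.mod_eq_of_lt (mem_range.1 h2))
  · intro n _
    rfl

theorem prod_bound (K : ℕ) (T : Finset ℕ) (hTK : T.card ≤ K) (P : Finset ℕ)
    (hP : ∀ p ∈ P, p.Prime ∧ 2 * K ≤ p ∧ T ⊆ range p) (f : ℕ → ℕ → ℝ) (hf : ∀ k w, 0 ≤ f k w) :
    av (∏ p ∈ P, p) (fun n => ∏ k ∈ T, f k (om P k n)) ≤ ∏ k ∈ T, EE (aa K) bb P (f k) := by
  induction P using Finset.induction_on generalizing f with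
  | empty => simp [av, om, EE]
  | insert p P hp ih =>
    obtain ⟨hpp, hK, hT⟩ := hP p (mem_insert_self _ _)
    have hP' : ∀ q ∈ P, q.Prime ∧ 2 * K ≤ q ∧ T ⊆ range q := fun q hq => hP q (mem_insert_of_mem hq)
    set N := ∏ q ∈ P, q with hN
    have hN0 : 0 < N := prod_pos fun q hq => (hP' q hq).1.pos
    have co : p.Coprime N := Nat.Coprime.prod_right fun q hq =>
      (Nat.coprime_primes hpp (hP' q hq).1).2 fun h => hp (h ▸ hq)
    have hom : ∀ k n, om (insert p P) k n = om P k (n % N) + if n % p = k then 1 else 0 := by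
      intro k n
      have h1 : om P k (n % N) = om P k n := by
        unfold om
        congr 1
        refine filter_congr fun q hq => ?_
        rw [Nat.mod_mod_of_dvd _ (dvd_prod_of_mem _ hq)]
      rw [h1, om, filter_insert]
      split_ifs with h
      · rw [card_insert_of_notMem (by simp [hp])]
        rfl
      · rfl
    rw [prod_insert hp, av]
    simp only [hom]
    rw [sum_crt co hpp.pos hN0 fun c m => ∏ k ∈ T, f k (om P k m + if c = k then 1 else 0)]
    simp only [EE_insert _ _ hp]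
    refine le_trans ?_ (step_bound hK hpp.pos T hT hTK _ _
      (fun k _ => EE_nonneg (fun q _ => aa_nonneg K q) (fun q _ => bb_nonneg q) fun w => hf k _)
      fun k _ => EE_nonneg (fun q _ => aa_nonneg K q) (fun q _ => bb_nonneg q) fun w => hf k _)
    rw [Nat.cast_mul, mul_comm (p : ℝ), ← div_div, sum_div]
    refine div_le_div_of_nonneg_right (sum_le_sum fun c _ => ?_) (by positivity)
    refine le_trans (ih hP' (fun k w => f k (w + if c = k then 1 else 0)) fun k w => hf k _)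
      (le_of_eq (prod_congr rfl fun k _ => ?_))
    split_ifs <;> simp

end Pool.Agent.MP_cebb75_nt
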