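import Pool.Agent.MP_cebb75_nt.Model

/-!
The approximating polynomials.
-/

set_option autoImplicit false

open Finset

noncomputable section

namespace Pool.Agent.MP_cebb75_nt

/-- truncated inclusion-exclusion for the event `w = J` -/
def YY (J t w : ℕ) : ℝ :=
  ∑ j ∈ range (t + 1), (-1) ^ j * ((J + j).choose J : ℝ) * (w.choose (J + j) : ℝ)

theorem YY_lt {J w : ℕ} (t : ℕ) (h : w < J) : YY J t w = 0 := by
  refine sum_eq_zero fun j _ => ?_
  rw [Nat.choose_eq_zero_of_lt (show w < J + j by omega)]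
  simp

theorem YY_self (J t : ℕ) : YY J t J = 1 := by
  rw [YY, sum_eq_single 0]
  · simp
  · intro j _ hj
    rw [Nat.choose_eq_zero_of_lt (show J < J + j by omega)]
    simp
  · simp

theorem YY_mid {J t w : ℕ} (h1 : J < w) (h2 : w ≤ J + t) : YY J t w = 0 := by
  have h3 : YY J t w = (w.choose J : ℝ) * ∑ j ∈ range (t + 1), (-1) ^ j * ((w - J).choose j : ℝ) := by
    rw [YY, mul_sum]
    refine sum_congr rfl fun j _ => ?_
    have := Nat.choose_mul (n := w) (k := J + j) (s := J) (by omega)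
    rw [Nat.add_sub_cancel_left] at this
    have h4 : (w.choose (J + j) : ℝ) * ((J + j).choose J : ℝ) =
        (w.choose J : ℝ) * ((w - J).choose j : ℝ) := by exact_mod_cast this
    linear_combination (-1) ^ j * h4
  have h4 : ∑ j ∈ range (w - J + 1), (-1 : ℝ) ^ j * ((w - J).choose j : ℝ) = 0 := by
    exact_mod_cast Int.alternating_sum_range_choose_of_ne (n := w - J) (by omega)
  rw [h3, ← sum_subset (s₁ := range (w - J + 1)) (by simp; omega), h4, mul_zero]
  intro j _ hj
  rw [Nat.choose_eq_zero_of_lt (by simpa using hj)]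
  simp

theorem YY_abs (J t w : ℕ) : |YY J t w| ≤ 4 ^ w := by
  refine (abs_sum_le_sum_abs _ _).trans ?_
  have h1 : ∀ j ∈ range (t + 1), |(-1) ^ j * ((J + j).choose J : ℝ) * (w.choose (J + j) : ℝ)| ≤
      2 ^ w * (w.choose (J + j) : ℝ) := by
    intro j _
    rw [abs_mul, abs_mul, abs_neg_one_pow, one_mul, Nat.abs_cast, Nat.abs_cast]
    by_cases h : J + j ≤ w
    · refine mul_le_mul_of_nonneg_right ?_ (by positivity)
      exact_mod_cast (Nat.choose_le_two_pow _ _).trans (Nat.pow_le_pow_right two_pos h)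
    · rw [Nat.choose_eq_zero_of_lt (show w < J + j by omega)]
      simp
  refine (sum_le_sum h1).trans ?_
  rw [← mul_sum, show (4 : ℝ) ^ w = 2 ^ w * 2 ^ w by rw [← mul_pow]; norm_num]
  refine mul_le_mul_of_nonneg_left ?_ (by positivity)
  have h2 : ∑ j ∈ range (t + 1), w.choose (J + j) ≤ 2 ^ w := by
    rw [← Nat.sum_range_choose w,
      ← sum_image (s := range (t + 1)) (g := fun j => J + j) (f := fun i => w.choose i)
        (fun a _ b _ h => by simpa using h),
      ← sum_filter_ne_zero]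
    refine sum_le_sum_of_subset fun i hi => ?_
    have := (mem_filter.1 hi).2
    rw [mem_range]
    by_contra h
    exact this (Nat.choose_eq_zero_of_lt (by omega))
  exact_mod_cast h2

/-- truncated inclusion-exclusion over the shifts -/
def QQ (T : Finset ℕ) (r : ℕ) (Y : ℕ → ℝ) : ℝ :=
  ∑ U ∈ T.powerset.filter (fun U => U.card ≤ r), ∏ k ∈ U, (-Y k)

theorem QQ_one (T : Finset ℕ) (r : ℕ) (Y : ℕ → ℝ) (h : ∀ k ∈ T, Y k = 0) : QQ T r Y = 1 := by
  rw [QQ, sum_eq_single ∅]
  · simp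
  · intro U hU hne
    obtain ⟨k, hk⟩ := nonempty_iff_ne_empty.2 hne
    exact prod_eq_zero hk (by rw [h k (mem_powerset.1 (mem_filter.1 hU).1 hk), neg_zero])
  · simp

theorem QQ_sq (T : Finset ℕ) (r : ℕ) (Y : ℕ → ℝ) :
    QQ T r Y ^ 2 ≤ 2 * ∏ k ∈ T, (1 - Y k) ^ 2 + 2 / 9 ^ r * ∏ k ∈ T, (1 + 3 * |Y k|) ^ 2 := by
  set R := ∑ U ∈ T.powerset.filter (fun U => ¬ U.card ≤ r), ∏ k ∈ U, (-Y k) with hR
  have h1 : QQ T r Y + R = ∏ k ∈ T, (1 - Y k) := by
    rw [QQ, hR, sum_filter_add_sum_filter_not, ← prod_one_add]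
    simp only [sub_eq_add_neg]
  have h2 : |R| ≤ (∏ k ∈ T, (1 + 3 * |Y k|)) / 3 ^ r := by
    rw [prod_one_add, sum_div]
    refine (abs_sum_le_sum_abs _ _).trans (le_trans (sum_le_sum fun U hU => ?_)
      (sum_le_sum_of_subset_of_nonneg (filter_subset (fun U : Finset ℕ => ¬ U.card ≤ r) _)
        fun U _ _ => by positivity))
    have h3 : r ≤ U.card := by have := (mem_filter.1 hU).2; omega
    rw [abs_prod, prod_mul_distrib, prod_const, le_div_iff₀ (by positivity), mul_comm]
    simp only [abs_neg]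
    exact mul_le_mul_of_nonneg_right (pow_le_pow_right₀ (by norm_num) h3) (by positivity)
  have h3 : R ^ 2 ≤ (∏ k ∈ T, (1 + 3 * |Y k|) ^ 2) / 9 ^ r := by
    rw [← sq_abs, prod_pow, show (9 : ℝ) ^ r = (3 ^ r) ^ 2 by rw [← pow_mul, mul_comm, pow_mul]; norm_num,
      ← div_pow]
    exact pow_le_pow_left₀ (abs_nonneg _) h2 2
  rw [prod_pow, ← h1, div_mul_eq_mul_div, mul_div_assoc]
  nlinarith [sq_nonneg (QQ T r Y + 2 * R)]

variable {N x : ℕ}

theorem choose_om (P : Finset ℕ) (k j : ℕ) (hP : ∀ p ∈ P, k < p) :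
    (fun n => ((om P k n).choose j : ℝ)) = ∑ D ∈ powersetCard j P, ∏ p ∈ D, ind p k := by
  funext n
  rw [Finset.sum_apply, om, ← card_powersetCard]
  have h1 : powersetCard j (P.filter fun p => n % p = k) =
      (powersetCard j P).filter fun D => ∀ p ∈ D, n % p = k := by
    ext D
    simp only [mem_powersetCard, mem_filter, subset_iff]
    exact ⟨fun h => ⟨⟨fun _ hy => (h.1 hy).1, h.2⟩, fun _ hy => (h.1 hy).2⟩,
      fun h => ⟨fun y hy => ⟨h.1.1 hy, h.2 y hy⟩, h.1.2⟩⟩
  rw [h1, card_filter]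
  push_cast
  refine sum_congr rfl fun D hD => ?_
  rw [Finset.prod_apply]
  simp only [ind]
  rw [prod_boole]
  refine if_congr (forall₂_congr fun p hp => ?_) rfl rfl
  rw [Nat.ModEq, Nat.mod_eq_of_lt (hP p ((mem_powersetCard.1 hD).1 hp))]

theorem mult_choose (P : Finset ℕ) (k j : ℕ) (hP : ∀ p ∈ P, k < p ∧ p ∣ N) :
    Mult N x (fun n => ((om P k n).choose j : ℝ)) ((P.card : ℝ) ^ j) := by
  rw [choose_om P k j fun p hp => (hP p hp).1]
  refine (Mult.sum _ _ (fun _ => 1) fun D hD => ?_).mono ?_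
  · have := Mult.prod (N := N) (x := x) D (fun p => ind p k) (fun _ => 1) fun p hp =>
      Mult.atom (Or.inr ⟨p, k, (hP p ((mem_powersetCard.1 hD).1 hp)).2, rfl⟩)
    simpa using this
  · rw [sum_const, card_powersetCard, nsmul_eq_mul, mul_one]
    exact_mod_cast Nat.choose_le_pow _ _

theorem mult_YY (P : Finset ℕ) (k J t z : ℕ) (hP : ∀ p ∈ P, k < p ∧ p ∣ N) (hz : P.card ≤ z)
    (hz1 : 1 ≤ z) : Mult N x (fun n => -YY J t (om P k n)) ((4 * z : ℝ) ^ (J + t)) := by
  have h1 : (fun n => -YY J t (om P k n)) = ∑ j ∈ range (t + 1),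
      (-((-1) ^ j * ((J + j).choose J : ℝ))) • fun n => ((om P k n).choose (J + j) : ℝ) := by
    funext n
    simp only [YY, Finset.sum_apply, Pi.smul_apply, smul_eq_mul, neg_mul, sum_neg_distrib]
  rw [h1]
  refine (Mult.sum _ _ _ fun j _ => (mult_choose P k (J + j) hP).smul _).mono ?_
  have hzR : (1 : ℝ) ≤ z := by exact_mod_cast hz1
  have h2 := sum_le_card_nsmul (range (t + 1))
    (fun j => |-((-1) ^ j * ((J + j).choose J : ℝ))| * (P.card : ℝ) ^ (J + j))
    ((2 * z : ℝ) ^ (J + t)) (fun j hj => by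
      rw [abs_neg, abs_mul, abs_neg_one_pow, one_mul, Nat.abs_cast]
      have h3 : ((J + j).choose J : ℝ) ≤ 2 ^ (J + j) := by exact_mod_cast Nat.choose_le_two_pow _ _
      have h4 : (P.card : ℝ) ^ (J + j) ≤ z ^ (J + j) :=
        pow_le_pow_left₀ (by positivity) (by exact_mod_cast hz) _
      refine (mul_le_mul h3 h4 (by positivity) (by positivity)).trans ?_
      rw [← mul_pow]
      exact pow_le_pow_right₀ (by linarith) (by have := mem_range.1 hj; omega))
  refine h2.trans ?_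
  rw [card_range, nsmul_eq_mul, show (4 * z : ℝ) = 2 * (2 * z) by ring, mul_pow 2 (2 * z : ℝ)]
  refine mul_le_mul_of_nonneg_right ?_ (by positivity)
  have h3 : t + 1 ≤ 2 ^ (J + t) :=
    (Nat.lt_two_pow_self (n := t)).trans_le (Nat.pow_le_pow_right two_pos (by omega))
  exact_mod_cast h3

theorem mult_QQ (T : Finset ℕ) (r K : ℕ) (hK : 1 ≤ K) (hT : T.card ≤ K) (Y : ℕ → ℕ → ℝ) (G : ℝ)
    (hG : 1 ≤ G) (hY : ∀ k ∈ T, Mult N x (fun n => -Y k n) G) :
    Mult N x (fun n => QQ T r fun k => Y k n) (3 * (K * G) ^ r) := by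
  have hKR : (1 : ℝ) ≤ K := by exact_mod_cast hK
  have h1 : (fun n => QQ T r fun k => Y k n) =
      ∑ U ∈ T.powerset.filter (fun U => U.card ≤ r), ∏ k ∈ U, fun n => -Y k n := by
    funext n
    simp only [QQ, Finset.sum_apply, Finset.prod_apply]
  rw [h1]
  refine (Mult.sum _ _ _ fun U hU => Mult.prod U _ (fun _ => G) fun k hk =>
    hY k (mem_powerset.1 (mem_filter.1 hU).1 hk)).mono ?_
  calc ∑ U ∈ T.powerset.filter (fun U => U.card ≤ r), ∏ _k ∈ U, G
      ≤ ∑ U ∈ T.powerset.filter (fun U => U.card ≤ r), (∏ _k ∈ U, (1 / K : ℝ)) * (K * G) ^ r := by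
        refine sum_le_sum fun U hU => ?_
        rw [prod_const, prod_const]
        have h2 : (K * G : ℝ) ^ U.card ≤ (K * G) ^ r :=
          pow_le_pow_right₀ (by nlinarith) (mem_filter.1 hU).2
        refine le_trans (le_of_eq ?_) (mul_le_mul_of_nonneg_left h2 (by positivity))
        rw [← mul_pow]
        congr 1
        field_simp
    _ ≤ (∑ U ∈ T.powerset, ∏ _k ∈ U, (1 / K : ℝ)) * (K * G) ^ r := by
        rw [← sum_mul]
        exact mul_le_mul_of_nonneg_right (sum_le_sum_of_subset_of_nonneg (filter_subset _ _)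
          fun U _ _ => by positivity) (by positivity)
    _ ≤ _ := by
        refine mul_le_mul_of_nonneg_right ?_ (by positivity)
        rw [← prod_one_add, prod_const]
        calc (1 + 1 / K : ℝ) ^ T.card ≤ (1 + 1 / K : ℝ) ^ K :=
              pow_le_pow_right₀ (le_add_of_nonneg_right (by positivity)) hT
          _ ≤ Real.exp (1 / K) ^ K :=
              pow_le_pow_left₀ (by positivity) (by linarith [Real.add_one_le_exp (1 / K : ℝ)]) _
          _ = Real.exp 1 := by
              rw [← Real.exp_nat_mul]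
              congr 1
              field_simp
          _ ≤ 3 := by linarith [Real.exp_one_lt_d9]

/-- the divisor condition -/
def Adm (n : ℕ) : Prop := ∀ k : ℕ, 1 ≤ k → k < n → (Nat.divisors (n - k)).card ≤ k + 2

theorem om_lt {n k J : ℕ} (P : Finset ℕ) (hP : ∀ p ∈ P, p.Prime) (hn : Adm n) (h1 : 1 ≤ k)
    (h2 : k < n) (hJ : k + 2 < 2 ^ J) : om P k n < J := by
  have h3 := hn k h1 h2
  rw [Nat.card_divisors (by omega)] at h3
  have h4 : 2 ^ (n - k).primeFactors.card ≤ ∏ p ∈ (n - k).primeFactors, ((n - k).factorization p + 1) :=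
    pow_card_le_prod _ _ _ fun p hp => by
      have := (Nat.prime_of_mem_primeFactors hp).factorization_pos_of_dvd (n := n - k) (by omega)
        (Nat.dvd_of_mem_primeFactors hp)
      omega
  have h5 : om P k n ≤ (n - k).primeFactors.card := by
    refine card_le_card fun p hp => ?_
    obtain ⟨h6, h7⟩ := mem_filter.1 hp
    refine Nat.mem_primeFactors.2 ⟨hP p h6, ?_, by omega⟩
    rw [← h7]
    exact Nat.dvd_sub_mod n
  have h6 : 2 ^ (n - k).primeFactors.card < 2 ^ J := by omega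
  have := (Nat.pow_lt_pow_iff_right (by norm_num : 1 < 2)).1 h6
  omega

open scoped Classical in
theorem count_le (x K K' J t r z : ℕ) (hK : 1 ≤ K) (hK' : K' ≤ K) (hJ : K + 2 < 2 ^ J)
    (P : Finset ℕ) (hP : ∀ p ∈ P, p.Prime ∧ 2 * K ≤ p) (hz : P.card ≤ z) (hz1 : 1 ≤ z) :
    (((range x).filter Adm).card : ℝ) ≤ (K + 1) +
      x * (2 * EE (aa K) bb P (fun w => (1 - YY J t w) ^ 2) ^ K' +
        2 / 9 ^ r * EE (aa K) bb P (fun w => (1 + 3 * |YY J t w|) ^ 2) ^ K') +
      9 * (K * (4 * z : ℝ) ^ (J + t)) ^ (2 * r) := by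
  set N := ∏ p ∈ P, p with hN
  have hN0 : 0 < N := prod_pos fun p hp => (hP p hp).1.pos
  set T := Icc 1 K' with hT
  have hTc : T.card = K' := by simp [hT]
  have hlt : ∀ k ∈ T, ∀ p ∈ P, k < p := by
    intro k hk p hp
    have := (hP p hp).2
    have := mem_Icc.1 hk
    omega
  set Q : ℕ → ℝ := fun n => QQ T r fun k => YY J t (om P k n) with hQ
  have hzR : (1 : ℝ) ≤ z := by exact_mod_cast hz1
  have hM : Mult N x Q (3 * (K * (4 * z : ℝ) ^ (J + t)) ^ r) :=
    mult_QQ T r K hK (by omega) (fun k n => YY J t (om P k n)) _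
      (one_le_pow₀ (by linarith)) fun k hk =>
      mult_YY P k J t z (fun p hp => ⟨hlt k hk p hp, dvd_prod_of_mem _ hp⟩) hz hz1
  have h1 := (hM.mul hM).disc hN0
  have h2 : (((range x).filter Adm).card : ℝ) ≤ (K + 1) + ∑ n ∈ range x, (Q * Q) n := by
    have h3 : (range x).filter Adm ⊆ range (K + 1) ∪ (range x).filter fun n => Adm n ∧ K < n := by
      intro n hn
      rw [mem_union, mem_range, mem_filter]
      obtain ⟨h4, h5⟩ := mem_filter.1 hn
      by_cases h : K < n
      · exact Or.inr ⟨h4, h5, h⟩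
      · left; omega
    have h4 : (((range x).filter Adm).card : ℝ) ≤
        (K + 1) + (((range x).filter fun n => Adm n ∧ K < n).card : ℝ) := by
      have := (card_le_card h3).trans (card_union_le _ _)
      rw [card_range] at this
      exact_mod_cast this
    refine h4.trans (add_le_add le_rfl ?_)
    rw [card_filter]
    push_cast
    refine sum_le_sum fun n _ => ?_
    split_ifs with h
    · have : Q n = 1 := QQ_one _ _ _ fun k hk => by
        have := mem_Icc.1 hk
        exact YY_lt t (om_lt P (fun p hp => (hP p hp).1) h.1 this.1 (by omega) (by omega))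
      simp [this]
    · exact mul_self_nonneg _
  have hb : ∀ f : ℕ → ℝ, (∀ w, 0 ≤ f w) →
      av N (fun n => ∏ k ∈ T, f (om P k n)) ≤ EE (aa K) bb P f ^ K' := by
    intro f hf
    have := prod_bound K T (by omega) P
      (fun p hp => ⟨(hP p hp).1, (hP p hp).2, fun k hk => mem_range.2 (hlt k hk p hp)⟩)
      (fun _ => f) fun _ => hf
    rwa [prod_const, hTc] at this
  have h3 : av N (Q * Q) ≤ 2 * EE (aa K) bb P (fun w => (1 - YY J t w) ^ 2) ^ K' +
      2 / 9 ^ r * EE (aa K) bb P (fun w => (1 + 3 * |YY J t w|) ^ 2) ^ K' := by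
    refine le_trans ?_ (add_le_add
      (mul_le_mul_of_nonneg_left (hb _ fun w => sq_nonneg _) (by norm_num))
      (mul_le_mul_of_nonneg_left (hb _ fun w => sq_nonneg _) (by positivity)))
    simp only [av]
    rw [mul_div_assoc', mul_div_assoc', ← add_div, mul_sum, mul_sum, ← sum_add_distrib]
    refine div_le_div_of_nonneg_right (sum_le_sum fun n _ => ?_) (by positivity)
    rw [Pi.mul_apply, ← sq]
    exact QQ_sq T r _
  have h4 := mul_le_mul_of_nonneg_left h3 (Nat.cast_nonneg (α := ℝ) x)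
  have h5 : 3 * (K * (4 * z : ℝ) ^ (J + t)) ^ r * (3 * (K * (4 * z : ℝ) ^ (J + t)) ^ r) =
      9 * (K * (4 * z : ℝ) ^ (J + t)) ^ (2 * r) := by ring
  linarith

end Pool.Agent.MP_cebb75_nt
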