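import Pool.Agent.Mg.Fc7a479.G8465b6

set_option autoImplicit false

open Filter

/-- The admissible integers up to `x` number at most
`x exp (-c (log x)^(1/2) / (log log x)^(5/4))` for large `x`. -/
theorem Pool.Agent.MP_cebb75_nt.SparseOld.result :
    ∃ c : ℝ, 0 < c ∧ ∀ᶠ x : ℕ in atTop,
      (({n : ℕ | n ≤ x ∧ ∀ k : ℕ, 1 ≤ k → k < n →
          (Nat.divisors (n - k)).card ≤ k + 2}.ncard : ℕ) : ℝ) ≤
        x * Real.exp (-(c * Real.sqrt (Real.log x) / Real.log (Real.log x) ^ (5 / 4 : ℝ))) := by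
  classical
  refine ⟨1 / (220 * Real.exp 5), by positivity, ?_⟩
  have h1 : Tendsto (fun x : ℕ => Real.log x) atTop atTop :=
    Real.tendsto_log_atTop.comp tendsto_natCast_atTop_atTop
  filter_upwards [h1.eventually_gt_atTop 0,
    (Real.tendsto_log_atTop.comp h1).eventually_ge_atTop 1296] with x h2 h3
  have h4 : {n : ℕ | n ≤ x ∧ ∀ k : ℕ, 1 ≤ k → k < n → (Nat.divisors (n - k)).card ≤ k + 2} =
      ((Finset.range (x + 1)).filter Pool.Agent.MP_cebb75_nt.Adm : Finset ℕ) := by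
    ext n
    simp [Pool.Agent.MP_cebb75_nt.Adm]
  rw [h4, Set.ncard_coe_finset]
  convert Pool.Agent.MP_cebb75_nt.final x h2 h3
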